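import Pool.Agent.K4H66.MV.A
import Pool.Agent.H447R2.MZ.Tup

set_option autoImplicit false

/-!
# Q1 gives a period map

`Q1` (the graded algebras of the multiple zeta values and `H = ℚ[π²] ⊗ (shuffle algebra)` are isomorphic)
implies that there is a period map `per : H → ℝ` with `per π² = π²`, without any further assumption.
-/

namespace Pool.Agent.K4H90.MZ

open Finset Pool.Agent.K4H54.MZ Pool.Agent.K4H66.MV

/-- the two definitions of the weight spaces agree (reverse the index) -/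
theorem Z_eq (w : ℕ) : Z w = Pool.Agent.H447R2.MZ.Zs w := by
  have key : ∀ (m : ℕ) (n : Fin m → ℕ), mzv m n =
      ∑' k : {k : Fin m → ℕ // StrictAnti k ∧ ∀ i, 1 ≤ k i},
        ∏ i, (((k.1 i : ℕ) : ℝ) ^ (n (Fin.rev i)))⁻¹ := by
    intro m n
    unfold mzv
    let e : {k : Fin m → ℕ // StrictMono k ∧ ∀ i, 0 < k i} ≃
        {k : Fin m → ℕ // StrictAnti k ∧ ∀ i, 1 ≤ k i} :=
      { toFun := fun k => ⟨fun i => k.1 (Fin.rev i),
          fun i j h => k.2.1 (Fin.rev_lt_rev.2 h), fun i => k.2.2 _⟩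
        invFun := fun k => ⟨fun i => k.1 (Fin.rev i),
          fun i j h => k.2.1 (Fin.rev_lt_rev.2 h), fun i => k.2.2 _⟩
        left_inv := fun k => by
          apply Subtype.ext
          funext i
          simp
        right_inv := fun k => by
          apply Subtype.ext
          funext i
          simp }
    rw [← e.tsum_eq]
    refine tsum_congr fun k => ?_
    show _ = ∏ i, (((k.1 (Fin.rev i) : ℕ) : ℝ) ^ (n (Fin.rev i)))⁻¹
    exact (Equiv.prod_comp Fin.revPerm fun i => (((k.1 i : ℕ) : ℝ) ^ (n i))⁻¹).symm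
  unfold Z Pool.Agent.H447R2.MZ.Zs
  congr 1
  ext x
  constructor
  · rintro ⟨m, n, h1, h2, h3, rfl⟩
    refine ⟨m, fun i => n (Fin.rev i), fun i => h1 _, fun h => h2 _ ?_, ?_, key m n⟩
    · rw [Fin.val_rev]
      show m - (0 + 1) + 1 = m
      omega
    · rw [← h3]
      exact Equiv.sum_comp Fin.revPerm n
  · rintro ⟨m, n, h1, h2, h3, rfl⟩
    refine ⟨m, fun i => n (Fin.rev i), fun i => h1 _, fun i hi => ?_, ?_, ?_⟩
    · have hm : 0 < m := by omega
      have e : Fin.rev i = ⟨0, hm⟩ := by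
        apply Fin.ext
        rw [Fin.val_rev]
        show m - (i.val + 1) = 0
        omega
      show 2 ≤ n (Fin.rev i)
      rw [e]
      exact h2 hm
    · rw [← h3]
      exact Equiv.sum_comp Fin.revPerm n
    · rw [key]
      simp

theorem Z_mul {a b : ℕ} {x y : ℝ} (hx : x ∈ Z a) (hy : y ∈ Z b) : x * y ∈ Z (a + b) := by
  rw [Z_eq] at *
  exact Pool.Agent.H447R2.MZ.mul_mem a b x y hx hy

theorem one_mem : (1 : ℝ) ∈ Z 0 := by
  rw [Z_eq]
  exact Pool.Agent.H447R2.MZ.one_mem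

theorem Z_two {x : ℝ} (hx : x ∈ Z 2) : ∃ q : ℚ, x = q * Real.pi ^ 2 := by
  rw [Z_eq, Pool.Agent.H447R2.MZ.Zs_eq] at hx
  induction hx using Submodule.span_induction with
  | mem x hx =>
    obtain ⟨s, hs, h0, rfl⟩ := hx
    have hs2 : s = [2] := by
      rcases s with _ | ⟨a, s⟩
      · simp at h0
      · have h1 := hs.2 a s rfl
        simp only [List.sum_cons] at h0
        have ha : a = 2 := by omega
        rcases s with _ | ⟨b, s⟩
        · rw [ha]
        · have := hs.1 b (by simp)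
          simp only [List.sum_cons] at h0
          omega
    subst hs2
    refine ⟨1 / 6, ?_⟩
    rw [← (Pool.Agent.H447R2.MZ.val_single 2 le_rfl).tsum_eq, Pool.Agent.H447R2.MZ.zeta_two]
    push_cast
    ring
  | zero => exact ⟨0, by simp⟩
  | add x y _ _ hx hy =>
    obtain ⟨p, rfl⟩ := hx
    obtain ⟨q, rfl⟩ := hy
    exact ⟨p + q, by push_cast; ring⟩
  | smul a x _ hx =>
    obtain ⟨q, rfl⟩ := hx
    exact ⟨a * q, by rw [Rat.smul_def]; push_cast; ring⟩

theorem single_mem (p : Bas) : (Finsupp.single p (1 : ℚ)) ∈ H (wt p) :=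
  Finsupp.single_mem_supported _ _ rfl

section

variable (φ : ∀ w : ℕ, Z w ≃ₗ[ℚ] H w)

/-- the inverse isomorphisms together -/
noncomputable def inv : (Bas →₀ ℚ) →ₗ[ℚ] ℝ :=
  Finsupp.linearCombination ℚ fun p => (((φ (wt p)).symm ⟨Finsupp.single p 1, single_mem p⟩ : Z (wt p)) : ℝ)

theorem inv_single (p : Bas) : inv φ (Finsupp.single p 1) =
    (((φ (wt p)).symm ⟨Finsupp.single p 1, single_mem p⟩ : Z (wt p)) : ℝ) := by
  unfold inv
  rw [Finsupp.linearCombination_single, one_smul]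

theorem inv_eq (w : ℕ) (x : Bas →₀ ℚ) (hx : x ∈ H w) :
    inv φ x = (((φ w).symm ⟨x, hx⟩ : Z w) : ℝ) := by
  have h1 : ∀ y ∈ Submodule.span ℚ ((fun p => Finsupp.single p (1 : ℚ)) '' {p : Bas | wt p = w}),
      ∃ hy : y ∈ H w, inv φ y = (((φ w).symm ⟨y, hy⟩ : Z w) : ℝ) := by
    intro y hy
    induction hy using Submodule.span_induction with
    | mem y hy =>
      obtain ⟨p, hp, rfl⟩ := hy
      have hp' : wt p = w := hp
      subst hp'
      exact ⟨single_mem p, inv_single φ p⟩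
    | zero =>
      refine ⟨Submodule.zero_mem _, ?_⟩
      rw [map_zero]
      have : (⟨0, Submodule.zero_mem _⟩ : H w) = 0 := rfl
      rw [this, map_zero]
      rfl
    | add y z _ _ hy hz =>
      obtain ⟨hy1, hy2⟩ := hy
      obtain ⟨hz1, hz2⟩ := hz
      refine ⟨Submodule.add_mem _ hy1 hz1, ?_⟩
      rw [map_add, hy2, hz2]
      have : (⟨y + z, Submodule.add_mem _ hy1 hz1⟩ : H w) = ⟨y, hy1⟩ + ⟨z, hz1⟩ := rfl
      rw [this, map_add]
      rfl
    | smul a y _ hy =>
      obtain ⟨hy1, hy2⟩ := hy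
      refine ⟨Submodule.smul_mem _ a hy1, ?_⟩
      rw [map_smul, hy2]
      have : (⟨a • y, Submodule.smul_mem _ a hy1⟩ : H w) = a • ⟨y, hy1⟩ := rfl
      rw [this, map_smul]
      rfl
  have h2 : x ∈ Submodule.span ℚ ((fun p => Finsupp.single p (1 : ℚ)) '' {p : Bas | wt p = w}) := by
    rw [← Finsupp.supported_eq_span_single]
    exact hx
  obtain ⟨_, h3⟩ := h1 x h2
  exact h3

theorem inv_map (w : ℕ) : (H w).map (inv φ) = Z w := by
  ext z
  constructor
  · rintro ⟨x, hx, rfl⟩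
    rw [inv_eq φ w x hx]
    exact Subtype.mem _
  · intro hz
    refine ⟨(φ w ⟨z, hz⟩ : Bas →₀ ℚ), Subtype.mem _, ?_⟩
    rw [inv_eq φ w _ (Subtype.mem _)]
    have : (⟨((φ w ⟨z, hz⟩ : H w) : Bas →₀ ℚ), Subtype.mem _⟩ : H w) = φ w ⟨z, hz⟩ := rfl
    rw [this, LinearEquiv.symm_apply_apply]

theorem inv_injective (w : ℕ) (x : Bas →₀ ℚ) (hx : x ∈ H w) (h : inv φ x = 0) : x = 0 := by
  rw [inv_eq φ w x hx] at h
  have h1 : (φ w).symm ⟨x, hx⟩ = 0 := Subtype.ext h
  have h2 : (⟨x, hx⟩ : H w) = 0 := by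
    have := congrArg (φ w) h1
    rwa [LinearEquiv.apply_symm_apply, map_zero] at this
  exact congrArg Subtype.val h2

theorem inv_mul (h2 : ∀ a b (x : Z a) (y : Z b) (z : Z (a + b)), (z : ℝ) = (x : ℝ) * (y : ℝ) →
      val φ (a + b) z = mulH (val φ a x) (val φ b y)) (x y : Bas →₀ ℚ) :
    inv φ (mulH x y) = inv φ x * inv φ y := by
  let f : (Bas →₀ ℚ) →ₗ[ℚ] (Bas →₀ ℚ) →ₗ[ℚ] ℝ := mulB.compr₂ (inv φ)
  let g : (Bas →₀ ℚ) →ₗ[ℚ] (Bas →₀ ℚ) →ₗ[ℚ] ℝ := (LinearMap.mul ℚ ℝ).compl₁₂ (inv φ) (inv φ)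
  have hfg : f = g := by
    apply bil_ext
    intro p q
    show inv φ (mulB (Finsupp.single p 1) (Finsupp.single q 1)) =
      inv φ (Finsupp.single p 1) * inv φ (Finsupp.single q 1)
    rw [mulB_apply, inv_single, inv_single]
    set X := (φ (wt p)).symm ⟨Finsupp.single p 1, single_mem p⟩ with hX
    set Y := (φ (wt q)).symm ⟨Finsupp.single q 1, single_mem q⟩ with hY
    have h3 := h2 (wt p) (wt q) X Y ⟨(X : ℝ) * (Y : ℝ), Z_mul X.2 Y.2⟩ rfl
    have h4 : val φ (wt p) X = Finsupp.single p 1 := by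
      unfold Pool.Agent.K4H54.MZ.val
      rw [hX, LinearEquiv.apply_symm_apply]
    have h5 : val φ (wt q) Y = Finsupp.single q 1 := by
      unfold Pool.Agent.K4H54.MZ.val
      rw [hY, LinearEquiv.apply_symm_apply]
    rw [h4, h5] at h3
    rw [← h3]
    unfold Pool.Agent.K4H54.MZ.val
    rw [inv_eq φ (wt p + wt q) _ (Subtype.mem _)]
    have : (⟨((φ (wt p + wt q) ⟨(X : ℝ) * (Y : ℝ), Z_mul X.2 Y.2⟩ : H (wt p + wt q)) : Bas →₀ ℚ),
        Subtype.mem _⟩ : H (wt p + wt q)) = φ (wt p + wt q) ⟨(X : ℝ) * (Y : ℝ), Z_mul X.2 Y.2⟩ := rfl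
    rw [this, LinearEquiv.symm_apply_apply]
  have := congrFun (congrArg DFunLike.coe (congrFun (congrArg DFunLike.coe hfg) x)) y
  show inv φ (mulH x y) = inv φ x * inv φ y
  rw [← mulB_apply]
  exact this

end

/-- the automorphism of `H` that multiplies `π²` by `t` -/
noncomputable def scale (t : ℚ) : (Bas →₀ ℚ) →ₗ[ℚ] (Bas →₀ ℚ) :=
  Finsupp.linearCombination ℚ fun p => t ^ p.1 • Finsupp.single p 1

theorem scale_single (t : ℚ) (p : Bas) : scale t (Finsupp.single p 1) = t ^ p.1 • Finsupp.single p 1 := by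
  unfold scale
  rw [Finsupp.linearCombination_single, one_smul]

theorem scale_mul (t : ℚ) (x y : Bas →₀ ℚ) : scale t (mulH x y) = mulH (scale t x) (scale t y) := by
  let f : (Bas →₀ ℚ) →ₗ[ℚ] (Bas →₀ ℚ) →ₗ[ℚ] (Bas →₀ ℚ) := mulB.compr₂ (scale t)
  let g : (Bas →₀ ℚ) →ₗ[ℚ] (Bas →₀ ℚ) →ₗ[ℚ] (Bas →₀ ℚ) := mulB.compl₁₂ (scale t) (scale t)
  have hfg : f = g := by
    apply bil_ext
    intro p q
    show scale t (mulB (Finsupp.single p 1) (Finsupp.single q 1)) =
      mulB (scale t (Finsupp.single p 1)) (scale t (Finsupp.single q 1))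
    rw [scale_single, scale_single, map_smul, map_smul, LinearMap.smul_apply, mulB_apply, mulH_single]
    unfold Mb
    rw [map_sum, Finset.smul_sum, Finset.smul_sum]
    refine Finset.sum_congr rfl fun S _ => ?_
    rw [scale_single, smul_smul, pow_add, mul_comm]
  have := congrFun (congrArg DFunLike.coe (congrFun (congrArg DFunLike.coe hfg) x)) y
  rw [← mulB_apply, ← mulB_apply]
  exact this

theorem scale_H {t : ℚ} (ht : t ≠ 0) (w : ℕ) : (H w).map (scale t) = H w := by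
  apply le_antisymm
  · rintro _ ⟨x, hx, rfl⟩
    have hx' : x ∈ Submodule.span ℚ ((fun p => Finsupp.single p (1 : ℚ)) '' {p : Bas | wt p = w}) := by
      rw [← Finsupp.supported_eq_span_single]
      exact hx
    induction hx' using Submodule.span_induction with
    | mem y hy =>
      obtain ⟨p, hp, rfl⟩ := hy
      rw [scale_single]
      apply Submodule.smul_mem
      exact Finsupp.single_mem_supported _ _ hp
    | zero => rw [map_zero]; exact Submodule.zero_mem _
    | add y z hy hz h1 h2 =>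
      rw [map_add]
      refine Submodule.add_mem _ (h1 ?_) (h2 ?_)
      · unfold H
        rw [Finsupp.supported_eq_span_single]
        exact hy
      · unfold H
        rw [Finsupp.supported_eq_span_single]
        exact hz
    | smul a y hy h1 =>
      rw [map_smul]
      refine Submodule.smul_mem _ a (h1 ?_)
      unfold H
      rw [Finsupp.supported_eq_span_single]
      exact hy
  · intro x hx
    have hx' : x ∈ Submodule.span ℚ ((fun p => Finsupp.single p (1 : ℚ)) '' {p : Bas | wt p = w}) := by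
      rw [← Finsupp.supported_eq_span_single]
      exact hx
    refine Submodule.span_le.2 ?_ hx'
    rintro _ ⟨p, hp, rfl⟩
    refine ⟨(t ^ p.1)⁻¹ • Finsupp.single p 1,
      Submodule.smul_mem _ _ (Finsupp.single_mem_supported _ _ hp), ?_⟩
    rw [map_smul, scale_single, smul_smul, inv_mul_cancel₀ (pow_ne_zero _ ht), one_smul]

/-- **Q1 gives a period map with `per π² = π²`.** -/
theorem per_of_Q1 (h : Q1) :
    ∃ per : (Bas →₀ ℚ) →ₗ[ℚ] ℝ, IsPeriodMap per ∧ per (Finsupp.single (1, []) 1) = Real.pi ^ 2 := by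
  obtain ⟨φ, h1, h2⟩ := h
  have hw : wt (1, []) = 2 := by simp [wt]
  have hmem : (Finsupp.single (1, []) (1 : ℚ) : Bas →₀ ℚ) ∈ H 2 := by
    have := single_mem (1, [])
    rwa [hw] at this
  obtain ⟨q, hq⟩ : ∃ q : ℚ, inv φ (Finsupp.single (1, []) 1) = q * Real.pi ^ 2 := by
    apply Z_two
    rw [← inv_map φ 2]
    exact Submodule.mem_map_of_mem hmem
  have hq0 : q ≠ 0 := by
    rintro rfl
    have h3 := inv_injective φ 2 _ hmem (by rw [hq]; simp)
    have h4 := congrArg (fun f : Bas →₀ ℚ => f (1, [])) h3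
    simp at h4
  refine ⟨(inv φ).comp (scale q⁻¹), ⟨?_, fun x y => ?_, fun w => ?_⟩, ?_⟩
  · rw [LinearMap.comp_apply, scale_single, pow_zero, one_smul]
    have hw0 : wt (0, []) = 0 := by simp [wt]
    have hmem0 : (Finsupp.single (0, []) (1 : ℚ) : Bas →₀ ℚ) ∈ H 0 := by
      have := single_mem (0, [])
      rwa [hw0] at this
    rw [inv_eq φ 0 _ hmem0]
    have h3 := h1 ⟨1, one_mem⟩ rfl
    have h4 : (⟨Finsupp.single (0, []) (1 : ℚ), hmem0⟩ : H 0) = φ 0 ⟨1, one_mem⟩ :=
      Subtype.ext h3.symm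
    rw [h4, LinearEquiv.symm_apply_apply]
  · rw [LinearMap.comp_apply, LinearMap.comp_apply, LinearMap.comp_apply, scale_mul, inv_mul φ h2]
  · rw [Submodule.map_comp, scale_H (inv_ne_zero hq0), inv_map]
  · rw [LinearMap.comp_apply, scale_single, pow_one, map_smul, hq, Rat.smul_def]
    have : (q : ℝ) ≠ 0 := by exact_mod_cast hq0
    push_cast
    rw [← mul_assoc, inv_mul_cancel₀ this, one_mul]

end Pool.Agent.K4H90.MZ
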